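import Mathlib
import Pool.Agent.W245.EB.BMain

/-!
# Integrals of the second kind on all elliptic curves over the algebraic numbers at once

Let `(E_b, ξ_b)`, `b ∈ ℕ`, be any sequence of elliptic curves `E_b = ℂ/Ω_b` with algebraic invariants
and classes `ξ_b ≠ 0` in `H¹_dR(E_b)` (for example a sequence in which every elliptic curve over the
algebraic numbers and every class occurs, up to isomorphism), with
`∫^z ξ_b = σ_b ζ(z) + ρ_b z`. For every `b` let `Γ_b` be a group of elliptic logarithms of algebraic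
points of `E_b`, of infinite rank over `End(E_b)`, and let `Λ` be a group of infinite rank of
logarithms of algebraic numbers. Let `v_0, v_1, …` be *any* sequence of complex numbers, for
instance an enumeration of all periods.

Then there are independent elements `t_i ∈ Λ`, `p_{b,i} ∈ Γ_b` such that for every `D` and all
independent elements `x_l` of the group generated by the `t_i`, `i ≥ D`, and `y_j` of the groups
generated by the `p_{b,i}`, `max(b, i) ≥ D`, the numbers `x_l` and `σ ζ(y_j) + ρ y_j` satisfy no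
nontrivial polynomial relation of total degree at most `D` with coefficients in the space spanned
over the algebraic numbers by `v_0, …, v_D`.

The proof contains complete formalizations of the theorems on linear forms in logarithms
(`Pool.Agent.H297R2.BakerThm`) and in integrals of the second kind (`Pool.Agent.W245.EB.RedZ`)
which are used.
-/

open scoped PeriodPair

noncomputable section

namespace Pool.Agent.Results.MP_1eadae_ag.SecondKindSubgroups

/-- The field of algebraic numbers. -/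
abbrev Qbar : IntermediateField ℚ ℂ := algebraicClosure ℚ ℂ

/-- The Weierstrass zeta function
`ζ(z) = 1/z + ∑_{l ≠ 0} (1/(z - l) + 1/l + z/l²)` (in Lean `1/0 = 0`, so that the term with `l = 0`
of the sum below is `1/z`). -/
def zetaW (L : PeriodPair) (z : ℂ) : ℂ := ∑' l : L.lattice, (1 / (z - l) + 1 / l + z / l ^ 2)

/-- `β` belongs to the field `k = End(ℂ/Ω) ⊗ ℚ`: some multiple `m β`, `m ≥ 1`, maps the lattice `Ω`
to itself. -/
def IsMult (L : PeriodPair) (β : ℂ) : Prop :=
  ∃ m : ℕ, 0 < m ∧ ∀ ω ∈ L.lattice, (m : ℂ) * β * ω ∈ L.lattice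

/-- The numbers `w_j` are linearly independent over `k`. -/
def IndepMult (L : PeriodPair) {R : ℕ} (w : Fin R → ℂ) : Prop :=
  ∀ β : Fin R → ℂ, (∀ j, IsMult L (β j)) → ∑ j, β j * w j = 0 → ∀ j, β j = 0

/-- The points `y_j` of the curves with indices `b_j` are independent: for each curve, those which
belong to it are linearly independent over `ℚ`. -/
def IndepPoints {n : ℕ} (b : Fin n → ℕ) (y : Fin n → ℂ) : Prop :=
  ∀ r : Fin n → ℚ, (∀ b₀ : ℕ, ∑ j, (if b j = b₀ then (r j : ℂ) * y j else 0) = 0) → ∀ j, r j = 0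

open Pool.Agent.W245.EB

/-- **Main result.** -/
theorem result (v : ℕ → ℂ)
    -- logarithms of algebraic numbers
    (Λ : AddSubgroup ℂ) (hΛ : ∀ x ∈ Λ, IsAlgebraic ℚ (Complex.exp x))
    (rΛ : ∀ R : ℕ, ∃ w : Fin R → ℂ, (∀ j, w j ∈ Λ) ∧ LinearIndependent ℚ w)
    -- elliptic curves, classes of differentials and elliptic logarithms
    (L : ℕ → PeriodPair) (h2 : ∀ b, IsAlgebraic ℚ (L b).g₂) (h3 : ∀ b, IsAlgebraic ℚ (L b).g₃)
    (σ ρ : ℕ → ℂ) (hσ : ∀ b, IsAlgebraic ℚ (σ b)) (hρ : ∀ b, IsAlgebraic ℚ (ρ b))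
    (hσρ : ∀ b, σ b ≠ 0 ∨ ρ b ≠ 0)
    (Γ : ℕ → AddSubgroup ℂ)
    (hΓ : ∀ b, ∀ u ∈ Γ b, u ∈ (L b).lattice ∨ IsAlgebraic ℚ (℘[L b] u))
    (rΓ : ∀ b R : ℕ, ∃ w : Fin R → ℂ, (∀ j, w j ∈ Γ b) ∧ IndepMult (L b) w) :
    ∃ (t : ℕ → ℂ) (p : ℕ → ℕ → ℂ), (∀ i, t i ∈ Λ) ∧ (∀ b i, p b i ∈ Γ b) ∧
      LinearIndependent ℚ t ∧ (∀ b, LinearIndependent ℚ (p b)) ∧
      ∀ (D s n : ℕ) (x : Fin s → ℂ) (b : Fin n → ℕ) (y : Fin n → ℂ),
        (∀ l, x l ∈ AddSubgroup.closure {a | ∃ i, D ≤ i ∧ a = t i}) →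
        (∀ j, y j ∈ AddSubgroup.closure {u | ∃ i, D ≤ max (b j) i ∧ u = p (b j) i}) →
        LinearIndependent ℚ x → IndepPoints b y →
        (∀ j, y j ∉ (L (b j)).lattice) ∧
        ∀ Q : MvPolynomial (Fin s ⊕ Fin n) ℂ, Q.totalDegree ≤ D →
          (∀ e, Q.coeff e ∈ Submodule.span Qbar (v '' Set.Iic D)) →
          MvPolynomial.eval (Sum.elim x
            fun j => σ (b j) * zetaW (L (b j)) (y j) + ρ (b j) * y j) Q = 0 →
          Q = 0 := by
  classical
  let S : SysB :=
    { Λ := Λ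
      hΛ := hΛ
      rΛ := rΛ
      L := L
      g2 := h2
      g3 := h3
      Γ := Γ
      hΓ := hΓ
      rΓ := fun b R => by
        obtain ⟨w, h4, h5⟩ := rΓ b R
        exact ⟨w, h4, fun j => hΓ b _ (h4 j), fun β hβ h0 => funext fun j => h5 β hβ h0 j⟩
      s := σ
      ρ := ρ
      hs := hσ
      hρ := hρ
      hsρ := hσρ }
  obtain ⟨c⟩ := S.exists_chainB v
  refine ⟨BC.lg c, BC.pt c, BC.lg_mem c, BC.pt_mem c, BC.lg_indep c, BC.pt_indep c, ?_⟩
  intro D s n x b y hx hy hxi hyi
  have hxr := fun l => rep_of_closure (hx l)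
  choose f hf hfx using hxr
  have hyr : ∀ j, ∃ g : ℕ →₀ ℤ, (∀ i, ¬ (D ≤ b j ∨ D ≤ i) → g i = 0) ∧
      y j = g.sum (fun i m => (m : ℂ) * BC.pt c (b j) i) := by
    intro j
    obtain ⟨g, hg, hgy⟩ := rep_of_closure (hy j)
    exact ⟨g, fun i hi => hg i (fun h => hi (le_max_iff.1 h)), hgy⟩
  choose g hg hgy using hyr
  have hyi' : ∀ r : Fin n → ℚ, (∀ b₀, ∑ j, (if b j = b₀ then (r j : ℂ) * y j else 0) = 0) → r = 0 :=
    fun r hr => funext fun j => hyi r hr j
  have hcore := BC.core c x b y f hf hfx g hg hgy hxi hyi'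
  have hy0 : ∀ j, y j ≠ 0 := by
    intro j h0
    have h4 := hyi (Pi.single j 1) (fun b₀ => by
      apply Finset.sum_eq_zero
      intro i _
      by_cases hij : i = j
      · subst hij
        rw [h0]
        simp
      · rw [Pi.single_eq_of_ne hij]
        simp) j
    rw [Pi.single_eq_same] at h4
    exact one_ne_zero h4
  have hnot : ∀ j, y j ∉ (L (b j)).lattice := by
    intro j
    have h4 := hy0 j
    rw [hgy j] at h4 ⊢
    exact BC.notMem c (b j) (g j) h4
  refine ⟨hnot, ?_⟩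
  intro Q hQ hcoef h0
  apply hcore Q hQ
  · intro e
    have h6 : Submodule.span Qbar (v '' Set.Iic D) ≤ c.A D ^ (D + 1) := by
      refine le_trans ?_ (c.le_pow D (D + 1) (by omega))
      refine le_trans ?_ (c.hV D)
      exact Submodule.span_mono Set.subset_union_left
    exact h6 (hcoef e)
  · have h6 : (fun j => σ (b j) * zetaW (L (b j)) (y j) + ρ (b j) * y j) =
        fun j => S.J (b j) (y j) := by
      funext j
      show _ = σ (b j) * zt (L (b j)) (y j) + ρ (b j) * y j
      rw [zt_of_notMem (hnot j)]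
      rfl
    rw [← h6]
    exact h0

end Pool.Agent.Results.MP_1eadae_ag.SecondKindSubgroups
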